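import Pool.Agent.Lib.MP_6cded1_nt.ML.Final3

/-!
# The `L¹` norm of the Möbius exponential sum is at least `R^{1/4 + 1/150}`
-/

set_option autoImplicit false

namespace Pool.Agent.Lib.MP_6cded1_nt.PowerGain

open Pool.Agent.Lib.MP_6cded1_nt.ML in
/-- The bound for every multiplicative `f` with `|f(n)| = 1` for squarefree `n` and `f(n) = 0` for all other `n`. -/
theorem general :
    ∃ R₀ : ℕ, ∀ R : ℕ, R₀ ≤ R →
      ∀ f : ℕ → ℂ, (∀ m n : ℕ, Nat.Coprime m n → f (m * n) = f m * f n) →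
        (∀ n : ℕ, Squarefree n → ‖f n‖ = 1) → (∀ n : ℕ, ¬ Squarefree n → f n = 0) →
        (R : ℝ) ^ ((1 : ℝ) / 4 + 1 / 150) ≤
          (∫ x in (0:ℝ)..1,
            ‖∑ n ∈ Finset.Icc 1 R,
              f n * Complex.exp (2 * (Real.pi : ℂ) * Complex.I * (n : ℂ) * (x : ℂ))‖) := by
  obtain ⟨R₀, h⟩ := main_grid
  refine ⟨R₀, fun R hR => ?_⟩
  intro f h1 h2 h3
  have h4 := h R hR f ⟨h1, h2, h3⟩
  have h5 : ∀ x : ℝ, F f R x = ∑ n ∈ Finset.Icc 1 R,
            f n * Complex.exp (2 * (Real.pi : ℂ) * Complex.I * (n : ℂ) * (x : ℂ)) := by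
    intro x
    unfold F
    refine Finset.sum_congr rfl ?_
    intro n _
    unfold e
    congr 2
    push_cast
    ring
  simp only [h5] at h4
  exact h4

/-- For all large `R` the `L¹` norm over `[0, 1]` of `∑_{n ≤ R} μ(n) e(n x)` is at least `R^{1/4 + 1/150}`. -/
theorem power_gain :
    ∃ R₀ : ℕ, ∀ R : ℕ, R₀ ≤ R →
      (R : ℝ) ^ ((1 : ℝ) / 4 + 1 / 150) ≤
        ∫ x in (0:ℝ)..1,
          ‖∑ n ∈ Finset.Icc 1 R,
            ((ArithmeticFunction.moebius n : ℤ) : ℂ) *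
              Complex.exp (2 * (Real.pi : ℂ) * Complex.I * (n : ℂ) * (x : ℂ))‖ := by
  obtain ⟨R₀, h⟩ := general
  refine ⟨R₀, fun R hR => ?_⟩
  refine h R hR (fun n => ((ArithmeticFunction.moebius n : ℤ) : ℂ)) ?_ ?_ ?_
  · intro m n hmn
    rw [ArithmeticFunction.isMultiplicative_moebius.map_mul_of_coprime hmn]
    push_cast
    ring
  · intro n hn
    rw [ArithmeticFunction.moebius_apply_of_squarefree hn]
    push_cast
    rw [norm_pow, norm_neg, norm_one, one_pow]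
  · intro n hn
    rw [ArithmeticFunction.moebius_eq_zero_of_not_squarefree hn]
    simp

end Pool.Agent.Lib.MP_6cded1_nt.PowerGain
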